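import Pool.Agent.Run7.h176.TetraWords

/-!
# Balls in connected graphs
-/

namespace Run7.h176

open Set

section Graph

variable {V : Type*}

open Classical in
/-- The ball of radius `k` about `r`. -/
noncomputable def ball [Fintype V] (G : SimpleGraph V) (r : V) (k : ℕ) : Finset V :=
  Finset.univ.filter fun x => G.dist r x ≤ k

theorem mem_ball [Fintype V] {G : SimpleGraph V} {r x : V} {k : ℕ} :
    x ∈ ball G r k ↔ G.dist r x ≤ k := by
  simp [ball]

theorem exists_geodesic (G : SimpleGraph V) (hG : G.Connected) (r x : V) :
    ∃ f : ℕ → V, f 0 = r ∧ f (G.dist r x) = x ∧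
      (∀ i, i ≤ G.dist r x → G.dist r (f i) = i ∧ G.dist (f i) x = G.dist r x - i) ∧
      ∀ i j, i ≤ j → j ≤ G.dist r x → G.dist (f i) (f j) ≤ j - i := by
  obtain ⟨p, hp⟩ := hG.exists_walk_length_eq_dist r x
  refine ⟨p.getVert, p.getVert_zero, by rw [← hp]; exact p.getVert_length, ?_, ?_⟩
  · intro i hi
    have h1 : G.dist r (p.getVert i) ≤ i := by
      have := SimpleGraph.dist_le (p.take i)
      refine this.trans ?_
      rw [SimpleGraph.Walk.take_length]
      exact min_le_left _ _
    have h2 : G.dist (p.getVert i) x ≤ G.dist r x - i := by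
      have := SimpleGraph.dist_le (p.drop i)
      refine this.trans ?_
      rw [SimpleGraph.Walk.drop_length, hp]
    have h3 := hG.dist_triangle (u := r) (v := p.getVert i) (w := x)
    omega
  · intro i j hij hj
    induction j, hij using Nat.le_induction with
    | base => simp
    | succ j hij ih =>
      have h1 := ih (by omega)
      have h2 : G.dist (p.getVert j) (p.getVert (j + 1)) ≤ 1 := by
        have hadj := p.adj_getVert_succ (i := j) (by rw [hp]; omega)
        exact (SimpleGraph.dist_eq_one_iff_adj.2 hadj).le
      have h3 := hG.dist_triangle (u := p.getVert i) (v := p.getVert j) (w := p.getVert (j + 1))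
      omega

/-- In a connected graph with at least `2 k + 1` vertices some ball of radius `k` has at least
`2 k + 1` elements. -/
theorem exists_big_ball [Fintype V] (G : SimpleGraph V) (hG : G.Connected) (k : ℕ)
    (hcard : 2 * k + 1 ≤ Fintype.card V) :
    ∃ r, 2 * k + 1 ≤ (ball G r k).card := by
  classical
  have : Nonempty V := hG.nonempty
  obtain ⟨r, -, hr⟩ := Finset.exists_max_image (Finset.univ : Finset V)
    (fun r => (ball G r k).card) Finset.univ_nonempty
  refine ⟨r, ?_⟩
  by_contra hlt
  push Not at hlt
  -- the ball is not everything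
  have hex : ∃ x, k < G.dist r x := by
    by_contra hno
    push Not at hno
    have : ball G r k = Finset.univ := by
      ext x; simp [mem_ball, hno x]
    rw [this, Finset.card_univ] at hlt
    omega
  obtain ⟨x0, hx0⟩ := hex
  -- a geodesic of length `k + 1`
  obtain ⟨f0, hf00, hf01, hf0, -⟩ := exists_geodesic G hG r x0
  obtain ⟨x, hdx⟩ : ∃ x, G.dist r x = k + 1 := ⟨f0 (k + 1), (hf0 (k + 1) (by omega)).1⟩
  obtain ⟨f, hf0', hf1, hf, hff⟩ := exists_geodesic G hG r x
  rw [hdx] at hf1 hf hff
  have hx1 : G.dist (f 1) x = k := by
    have := (hf 1 (by omega)).2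
    omega
  have hr1 : G.dist r (f 1) = 1 := (hf 1 (by omega)).1
  by_cases hcase : ∃ y, G.dist r y ≤ k ∧ k < G.dist (f 1) y
  · obtain ⟨y, hy1, hy2⟩ := hcase
    have htri := hG.dist_triangle (u := f 1) (v := r) (w := y)
    have hcomm : G.dist (f 1) r = 1 := by rw [SimpleGraph.dist_comm, hr1]
    have hyk : G.dist r y = k := by omega
    obtain ⟨g, hg0, hg1, hg, -⟩ := exists_geodesic G hG r y
    rw [hyk] at hg1 hg
    -- the two geodesics meet in `r` only
    have hdis : ∀ i j, i ≤ k → 1 ≤ j → j ≤ k → f i ≠ g j := by
      intro i j hi2 hj1 hj2 hij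
      have h1 := (hf i (by omega)).1
      have h2 := (hg j hj2).1
      rw [hij, h2] at h1
      subst h1
      have h3 := (hg j hj2).2
      have h4 := hff 1 j hj1 (by omega)
      have h5 := hG.dist_triangle (u := f 1) (v := f j) (w := y)
      rw [hij] at h4 h5
      omega
    have hA : ((Finset.range (k + 1)).image f).card = k + 1 := by
      rw [Finset.card_image_of_injOn, Finset.card_range]
      intro i hi j hj hij
      have hi' : i ≤ k + 1 := by
        have := Finset.mem_range.1 (Finset.mem_coe.1 hi)
        omega
      have hj' : j ≤ k + 1 := by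
        have := Finset.mem_range.1 (Finset.mem_coe.1 hj)
        omega
      have h1 := (hf i hi').1
      have h2 := (hf j hj').1
      have hij' : f i = f j := hij
      rw [hij', h2] at h1
      exact h1.symm
    have hB : ((Finset.Icc 1 k).image g).card = k := by
      rw [Finset.card_image_of_injOn, Nat.card_Icc]
      · omega
      intro i hi j hj hij
      have hi' := Finset.mem_Icc.1 (Finset.mem_coe.1 hi)
      have hj' := Finset.mem_Icc.1 (Finset.mem_coe.1 hj)
      have h1 := (hg i hi'.2).1
      have h2 := (hg j hj'.2).1
      have hij' : g i = g j := hij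
      rw [hij', h2] at h1
      exact h1.symm
    have hAB : Disjoint ((Finset.range (k + 1)).image f) ((Finset.Icc 1 k).image g) := by
      rw [Finset.disjoint_left]
      intro z hz hz'
      obtain ⟨i, hi, rfl⟩ := Finset.mem_image.1 hz
      obtain ⟨j, hj, hij⟩ := Finset.mem_image.1 hz'
      have hi' := Finset.mem_range.1 hi
      have hj' := Finset.mem_Icc.1 hj
      exact hdis i j (by omega) hj'.1 hj'.2 hij.symm
    have hsub : (Finset.range (k + 1)).image f ∪ (Finset.Icc 1 k).image g ⊆ ball G r k := by
      intro z hz
      rw [mem_ball]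
      rcases Finset.mem_union.1 hz with hz | hz
      · obtain ⟨i, hi, rfl⟩ := Finset.mem_image.1 hz
        have hi' := Finset.mem_range.1 hi
        rw [(hf i (by omega)).1]
        omega
      · obtain ⟨i, hi, rfl⟩ := Finset.mem_image.1 hz
        have hi' := Finset.mem_Icc.1 hi
        rw [(hg i hi'.2).1]
        omega
    have h1 := Finset.card_le_card hsub
    rw [Finset.card_union_of_disjoint hAB, hA, hB] at h1
    omega
  · push Not at hcase
    have hsub : ball G r k ⊂ ball G (f 1) k := by
      refine Finset.ssubset_iff_subset_ne.2 ⟨?_, ?_⟩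
      · intro y hy
        rw [mem_ball] at hy ⊢
        exact hcase y hy
      · intro heq
        have : x ∈ ball G (f 1) k := by rw [mem_ball, hx1]
        rw [← heq, mem_ball, hdx] at this
        omega
    have := Finset.card_lt_card hsub
    have h2 := hr (f 1) (Finset.mem_univ _)
    omega

end Graph

end Run7.h176
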