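import Pool.Agent.Run7.h176.TetraDefs

namespace Run7.h176

set_option linter.unusedSimpArgs false

open Set
open scoped RealInnerProductSpace

/-- Vectors from the common vertex to the other vertices of a regular tetrahedron. -/
structure Reg (ℓ : ℝ) (F : Fin 3 → E3) : Prop where
  pos : 0 < ℓ
  diag : ∀ i, ⟪F i, F i⟫ = ℓ ^ 2
  off : ∀ i j, i ≠ j → ⟪F i, F j⟫ = ℓ ^ 2 / 2

theorem reg_of_isRegTetra {ℓ : ℝ} (hℓ : 0 < ℓ) {p : E3} {v : Fin 3 → E3}
    (h : IsRegTetra ℓ p v) : Reg ℓ (fun i => v i - p) := by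
  have hd : ∀ i, ⟪v i - p, v i - p⟫ = ℓ ^ 2 := by
    intro i
    rw [real_inner_self_eq_norm_sq, ← dist_eq_norm, dist_comm, h.1 i]
  refine ⟨hℓ, hd, ?_⟩
  intro i j hij
  have h1 : ‖(v i - p) - (v j - p)‖ ^ 2 = ℓ ^ 2 := by
    rw [sub_sub_sub_cancel_right, ← dist_eq_norm, h.2 i j hij]
  rw [@norm_sub_sq_real, ← real_inner_self_eq_norm_sq, ← real_inner_self_eq_norm_sq,
    hd i, hd j] at h1
  linarith

theorem isRegTetra_of_reg {ℓ : ℝ} {p : E3} {F : Fin 3 → E3} (h : Reg ℓ F) :
    IsRegTetra ℓ p (fun i => p + F i) := by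
  have hn : ∀ i, ‖F i‖ = ℓ := by
    intro i
    have := h.diag i
    rw [real_inner_self_eq_norm_sq] at this
    exact (pow_left_inj₀ (norm_nonneg _) h.pos.le two_ne_zero).1 this
  refine ⟨fun i => ?_, fun i j hij => ?_⟩
  · rw [dist_eq_norm]
    simpa using hn i
  · rw [dist_eq_norm, add_sub_add_left_eq_sub]
    have h1 : ‖F i - F j‖ ^ 2 = ℓ ^ 2 := by
      rw [@norm_sub_sq_real, h.off i j hij, hn i, hn j]
      ring
    exact (pow_left_inj₀ (norm_nonneg _) h.pos.le two_ne_zero).1 h1

/-- Coordinates with respect to a regular frame are read off by inner products. -/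
theorem Reg.inner_sum {ℓ : ℝ} {F : Fin 3 → E3} (h : Reg ℓ F) (x : Fin 3 → ℝ) (j : Fin 3) :
    ⟪∑ k, x k • F k, F j⟫ = ℓ ^ 2 / 2 * (x j + ∑ k, x k) := by
  have h00 := h.diag 0
  have h11 := h.diag 1
  have h22 := h.diag 2
  have h01 := h.off 0 1 (by decide)
  have h02 := h.off 0 2 (by decide)
  have h12 := h.off 1 2 (by decide)
  have h10 := h.off 1 0 (by decide)
  have h20 := h.off 2 0 (by decide)
  have h21 := h.off 2 1 (by decide)
  simp only [Fin.sum_univ_three, inner_add_left, real_inner_smul_left]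
  fin_cases j
  · simp only [Fin.zero_eta, Fin.isValue]
    rw [h00, h10, h20]; ring
  · simp only [Fin.mk_one, Fin.isValue]
    rw [h01, h11, h21]; ring
  · simp only [Fin.reduceFinMk, Fin.isValue]
    rw [h02, h12, h22]; ring

theorem Reg.linearIndependent {ℓ : ℝ} {F : Fin 3 → E3} (h : Reg ℓ F) :
    LinearIndependent ℝ F := by
  rw [Fintype.linearIndependent_iff]
  intro x hx
  have hl : 0 < ℓ ^ 2 / 2 := by have := h.pos; positivity
  have h1 : ∀ j, x j + ∑ k, x k = 0 := by
    intro j
    have := h.inner_sum x j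
    rw [hx, inner_zero_left] at this
    rcases mul_eq_zero.1 this.symm with h2 | h2
    · exact absurd h2 hl.ne'
    · exact h2
  have h0 := h1 0
  have h1' := h1 1
  have h2 := h1 2
  simp only [Fin.sum_univ_three] at h0 h1' h2
  intro i
  fin_cases i
  · show x 0 = 0
    linarith
  · show x 1 = 0
    linarith
  · show x 2 = 0
    linarith

/-- The linear map attached to a frame. -/
noncomputable def lin (F : Fin 3 → E3) : (Fin 3 → ℝ) →ₗ[ℝ] E3 :=
  Fintype.linearCombination ℝ F

theorem lin_apply (F : Fin 3 → E3) (x : Fin 3 → ℝ) : lin F x = ∑ k, x k • F k := by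
  simp [lin, Fintype.linearCombination_apply]

theorem Reg.surjective {ℓ : ℝ} {F : Fin 3 → E3} (h : Reg ℓ F) :
    Function.Surjective (lin F) := by
  have hinj : Function.Injective (lin F) := by
    rw [injective_iff_map_eq_zero]
    intro x hx
    rw [lin_apply] at hx
    have := Fintype.linearIndependent_iff.1 h.linearIndependent x hx
    funext i
    exact this i
  have hr : Module.finrank ℝ (Fin 3 → ℝ) = Module.finrank ℝ E3 := by simp
  exact (LinearMap.injective_iff_surjective_of_finrank_eq_finrank hr).1 hinj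

theorem Reg.exists_coord {ℓ : ℝ} {F : Fin 3 → E3} (h : Reg ℓ F) (y : E3) :
    ∃ x : Fin 3 → ℝ, y = ∑ k, x k • F k := by
  obtain ⟨x, hx⟩ := h.surjective y
  exact ⟨x, by rw [← hx, lin_apply]⟩

/-- The open cone of a frame. -/
def InCone (F : Fin 3 → E3) (w : E3) : Prop :=
  ∃ x : Fin 3 → ℝ, (∀ k, 0 < x k) ∧ w = ∑ k, x k • F k

/-- A point of the open cone, moved close enough to the apex, is an interior point. -/
theorem Reg.mem_interior {ℓ : ℝ} {F : Fin 3 → E3} (h : Reg ℓ F) (p : E3) {S : Set E3}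
    (hS : ∀ k, p + F k ∈ S) (hp : p ∈ S) {w : E3} (hw : InCone F w) :
    ∃ ε₀ : ℝ, 0 < ε₀ ∧ ∀ ε : ℝ, 0 < ε → ε < ε₀ → p + ε • w ∈ interior (convexHull ℝ S) := by
  obtain ⟨x, hx, rfl⟩ := hw
  -- the open simplex
  let O : Set (Fin 3 → ℝ) := {y | (∀ k, 0 < y k) ∧ ∑ k, y k < 1}
  have hO : IsOpen O := by
    have h1 : IsOpen {y : Fin 3 → ℝ | ∀ k, 0 < y k} := by
      have : {y : Fin 3 → ℝ | ∀ k, 0 < y k} = ⋂ k, {y | 0 < y k} := by
        ext y; simp
      rw [this]
      exact isOpen_iInter_of_finite fun k => isOpen_lt continuous_const (continuous_apply k)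
    have h2 : IsOpen {y : Fin 3 → ℝ | ∑ k, y k < 1} :=
      isOpen_lt (continuous_finsetSum _ fun k _ => continuous_apply k) continuous_const
    exact h1.inter h2
  have hopen : IsOpenMap (fun y : Fin 3 → ℝ => p + lin F y) := by
    have h1 : IsOpenMap (lin F) := LinearMap.isOpenMap_of_finiteDimensional _ h.surjective
    exact (isOpenMap_add_left p).comp h1
  have hsub : (fun y : Fin 3 → ℝ => p + lin F y) '' O ⊆ convexHull ℝ S := by
    rintro _ ⟨y, ⟨hy0, hy1⟩, rfl⟩
    have hconv := convex_convexHull ℝ S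
    -- write as a convex combination of four points
    let z : Option (Fin 3) → E3 := fun o => o.elim p (fun k => p + F k)
    let a : Option (Fin 3) → ℝ := fun o => o.elim (1 - ∑ k, y k) y
    have hz : ∀ o ∈ (Finset.univ : Finset (Option (Fin 3))), z o ∈ convexHull ℝ S := by
      intro o _
      cases o with
      | none => exact subset_convexHull ℝ S hp
      | some k => exact subset_convexHull ℝ S (hS k)
    have ha : ∀ o ∈ (Finset.univ : Finset (Option (Fin 3))), 0 ≤ a o := by
      intro o _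
      cases o with
      | none => show 0 ≤ 1 - ∑ k, y k; linarith
      | some k => exact (hy0 k).le
    have hsum : ∑ o, a o = 1 := by
      rw [Fintype.sum_option]
      show (1 - ∑ k, y k) + ∑ k, y k = 1
      ring
    have := hconv.sum_mem ha hsum hz
    rw [Fintype.sum_option] at this
    convert this using 1
    show p + lin F y = (1 - ∑ k, y k) • p + ∑ k, y k • (p + F k)
    rw [lin_apply]
    simp only [smul_add, Finset.sum_add_distrib, ← Finset.sum_smul, sub_smul, one_smul]
    abel
  have hsub2 : (fun y : Fin 3 → ℝ => p + lin F y) '' O ⊆ interior (convexHull ℝ S) :=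
    interior_maximal hsub (hopen O hO)
  have hs : 0 < ∑ k, x k := Finset.sum_pos (fun k _ => hx k) Finset.univ_nonempty
  refine ⟨1 / ∑ k, x k, by positivity, fun ε he he1 => hsub2 ⟨fun k => ε * x k, ⟨?_, ?_⟩, ?_⟩⟩
  · intro k
    exact mul_pos he (hx k)
  · show ∑ k, ε * x k < 1
    rw [← Finset.mul_sum]
    rwa [lt_div_iff₀ hs] at he1
  · show p + lin F (fun k => ε * x k) = p + ε • ∑ k, x k • F k
    rw [lin_apply, Finset.smul_sum]
    simp only [smul_smul]

/-- If two tetrahedra have a common direction inside both cones then their interiors meet. -/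
theorem not_disjoint {ℓ ℓ' : ℝ} {F G : Fin 3 → E3} (hF : Reg ℓ F) (hG : Reg ℓ' G) (p : E3)
    {S T : Set E3} (hS : ∀ k, p + F k ∈ S) (hpS : p ∈ S) (hT : ∀ k, p + G k ∈ T) (hpT : p ∈ T)
    {w : E3} (hw : InCone F w) (hw' : InCone G w) :
    ¬ Disjoint (interior (convexHull ℝ S)) (interior (convexHull ℝ T)) := by
  obtain ⟨e1, he1, h1⟩ := hF.mem_interior p hS hpS hw
  obtain ⟨e2, he2, h2⟩ := hG.mem_interior p hT hpT hw'
  intro hd
  have hpos : 0 < min e1 e2 / 2 := by positivity
  have hlt : min e1 e2 / 2 < min e1 e2 := by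
    have : 0 < min e1 e2 := lt_min he1 he2
    linarith
  exact Set.disjoint_left.1 hd (h1 _ hpos (lt_of_lt_of_le hlt (min_le_left _ _)))
    (h2 _ hpos (lt_of_lt_of_le hlt (min_le_right _ _)))

/-- Reflection of the vertex number `s` in the plane of the other two. -/
noncomputable def refl (F : Fin 3 → E3) (s : Fin 3) : Fin 3 → E3 := fun k =>
  if k = s then (2 / 3 : ℝ) • (∑ j, F j - F s) - F s else F k

theorem refl_same (F : Fin 3 → E3) (s : Fin 3) :
    refl F s s = (2 / 3 : ℝ) • (∑ j, F j - F s) - F s := by simp [refl]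

theorem refl_ne (F : Fin 3 → E3) {s k : Fin 3} (h : k ≠ s) : refl F s k = F k := by
  simp [refl, h]

theorem refl_refl (F : Fin 3 → E3) (s : Fin 3) : refl (refl F s) s = F := by
  have key : ∑ j, refl F s j - refl F s s = ∑ j, F j - F s := by
    have h1 : ∑ j, refl F s j = ∑ j ∈ Finset.univ.erase s, refl F s j + refl F s s :=
      (Finset.sum_erase_add _ _ (Finset.mem_univ s)).symm
    have h2 : ∑ j, F j = ∑ j ∈ Finset.univ.erase s, F j + F s :=
      (Finset.sum_erase_add _ _ (Finset.mem_univ s)).symm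
    have h3 : ∑ j ∈ Finset.univ.erase s, refl F s j = ∑ j ∈ Finset.univ.erase s, F j :=
      Finset.sum_congr rfl fun j hj => refl_ne F (Finset.ne_of_mem_erase hj)
    rw [h1, h2, h3]
    abel
  funext k
  by_cases hk : k = s
  · subst hk
    rw [refl_same, key, refl_same]
    abel
  · rw [refl_ne _ hk, refl_ne _ hk]

theorem Reg.refl {ℓ : ℝ} {F : Fin 3 → E3} (h : Reg ℓ F) (s : Fin 3) : Reg ℓ (refl F s) := by
  have h00 := h.diag 0
  have h11 := h.diag 1
  have h22 := h.diag 2
  have h01 := h.off 0 1 (by decide)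
  have h02 := h.off 0 2 (by decide)
  have h12 := h.off 1 2 (by decide)
  have h10 := h.off 1 0 (by decide)
  have h20 := h.off 2 0 (by decide)
  have h21 := h.off 2 1 (by decide)
  refine ⟨h.pos, ?_, ?_⟩
  · intro i
    by_cases hi : i = s
    · subst hi
      rw [refl_same]
      fin_cases i <;>
      · simp only [Fin.sum_univ_three, Fin.zero_eta, Fin.mk_one, Fin.reduceFinMk, Fin.isValue,
          inner_add_left, inner_add_right, inner_sub_left, inner_sub_right, real_inner_smul_left,
          real_inner_smul_right, h00, h11, h22, h01, h02, h12, h10, h20, h21]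
        ring
    · rw [refl_ne _ hi]
      exact h.diag i
  · intro i j hij
    by_cases hi : i = s
    · subst hi
      rw [refl_same, refl_ne _ (Ne.symm hij)]
      fin_cases i <;> fin_cases j <;>
      first
      | exact absurd rfl hij
      | (simp only [Fin.sum_univ_three, Fin.zero_eta, Fin.mk_one, Fin.reduceFinMk, Fin.isValue,
          inner_add_left, inner_add_right, inner_sub_left, inner_sub_right, real_inner_smul_left,
          real_inner_smul_right, h00, h11, h22, h01, h02, h12, h10, h20, h21]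
         ring)
    · by_cases hj : j = s
      · subst hj
        rw [refl_same, refl_ne _ hi]
        fin_cases i <;> fin_cases j <;>
        first
        | exact absurd rfl hij
        | (simp only [Fin.sum_univ_three, Fin.zero_eta, Fin.mk_one, Fin.reduceFinMk, Fin.isValue,
            inner_add_left, inner_add_right, inner_sub_left, inner_sub_right, real_inner_smul_left,
            real_inner_smul_right, h00, h11, h22, h01, h02, h12, h10, h20, h21]
           ring)
      · rw [refl_ne _ hi, refl_ne _ hj]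
        exact h.off i j hij

/-- The fourth vertex over a given face: there are two possibilities. -/
theorem two_solutions {ℓ : ℝ} {F : Fin 3 → E3} (h : Reg ℓ F) (s : Fin 3) {d : E3}
    (hd : ⟪d, d⟫ = ℓ ^ 2) (hdk : ∀ k, k ≠ s → ⟪d, F k⟫ = ℓ ^ 2 / 2) :
    d = F s ∨ d = Run7.h176.refl F s s := by
  obtain ⟨x, rfl⟩ := h.exists_coord d
  have hl : ℓ ^ 2 ≠ 0 := by have := h.pos; positivity
  have hx : ∀ k, k ≠ s → x k + ∑ j, x j = 1 := by
    intro k hk
    have := hdk k hk
    rw [h.inner_sum] at this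
    have h2 : ℓ ^ 2 * (x k + ∑ j, x j) = ℓ ^ 2 * 1 := by linarith
    exact mul_left_cancel₀ hl h2
  have hself : (∑ k, x k ^ 2 + (∑ k, x k) ^ 2) = 2 := by
    have h1 : ⟪∑ k, x k • F k, ∑ k, x k • F k⟫
        = ∑ j, x j * (ℓ ^ 2 / 2 * (x j + ∑ k, x k)) := by
      conv_lhs => rw [inner_sum]
      refine Finset.sum_congr rfl fun j _ => ?_
      rw [real_inner_smul_right, h.inner_sum]
    rw [h1] at hd
    have h2 : ∑ j, x j * (ℓ ^ 2 / 2 * (x j + ∑ k, x k))
        = ℓ ^ 2 / 2 * (∑ k, x k ^ 2 + (∑ k, x k) ^ 2) := by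
      rw [sq (∑ k, x k), Finset.sum_mul, ← Finset.sum_add_distrib, Finset.mul_sum]
      refine Finset.sum_congr rfl fun j _ => ?_
      ring
    rw [h2] at hd
    have h3 : ℓ ^ 2 * (∑ k, x k ^ 2 + (∑ k, x k) ^ 2) = ℓ ^ 2 * 2 := by linarith
    exact mul_left_cancel₀ hl h3
  -- the two other coordinates agree
  have key : ∀ i j : Fin 3, i ≠ s → j ≠ s → i ≠ j →
      (∑ k, x k = x s + x i + x j) → (∑ k, x k ^ 2 = x s ^ 2 + x i ^ 2 + x j ^ 2) →
      (x s = 1 ∧ x i = 0 ∧ x j = 0) ∨ (x s = -1 ∧ x i = 2 / 3 ∧ x j = 2 / 3) := by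
    intro i j hi hj _ hs1 hs2
    have h1 := hx i hi
    have h2 := hx j hj
    have hij : x i = x j := by linarith
    rw [hs1] at h1 h2 hself
    rw [hs2] at hself
    have h3 : x s = 1 - 3 * x i := by linarith
    have h4 : x i * (x i - 2 / 3) = 0 := by
      rw [h3, ← hij] at hself
      nlinarith
    rcases mul_eq_zero.1 h4 with h5 | h5
    · left
      refine ⟨by rw [h3, h5]; ring, h5, by rw [← hij]; exact h5⟩
    · right
      have h6 : x i = 2 / 3 := by linarith
      refine ⟨by rw [h3, h6]; ring, h6, by rw [← hij]; exact h6⟩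
  have hfin : s = 0 ∨ s = 1 ∨ s = 2 := by fin_cases s <;> simp
  rw [refl_same]
  simp only [Fin.sum_univ_three]
  rcases hfin with rfl | rfl | rfl
  · rcases key 1 2 (by decide) (by decide) (by decide)
      (by simp only [Fin.sum_univ_three]) (by simp only [Fin.sum_univ_three])
      with ⟨h1, h2, h3⟩ | ⟨h1, h2, h3⟩
    · left; rw [h1, h2, h3]; simp
    · right; rw [h1, h2, h3]; simp only [smul_add, smul_sub, neg_smul, one_smul]; abel
  · rcases key 0 2 (by decide) (by decide) (by decide)
      (by simp only [Fin.sum_univ_three]; ring) (by simp only [Fin.sum_univ_three]; ring)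
      with ⟨h1, h2, h3⟩ | ⟨h1, h2, h3⟩
    · left; rw [h1, h2, h3]; simp
    · right; rw [h1, h2, h3]; simp only [smul_add, smul_sub, neg_smul, one_smul]; abel
  · rcases key 0 1 (by decide) (by decide) (by decide)
      (by simp only [Fin.sum_univ_three]; ring) (by simp only [Fin.sum_univ_three]; ring)
      with ⟨h1, h2, h3⟩ | ⟨h1, h2, h3⟩
    · left; rw [h1, h2, h3]; simp
    · right; rw [h1, h2, h3]; simp only [smul_add, smul_sub, neg_smul, one_smul]; abel

end Run7.h176
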