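import Pool.Agent.Run7.h176.TetraBasic

/-!
# The finite computations
-/

namespace Run7.h176

open Set

set_option linter.unusedSimpArgs false

/-- Integer coordinate vectors. -/
abbrev T3 := ℤ × ℤ × ℤ

/-- Coordinates after a reflection of the frame, multiplied by three. -/
def updT (s : Fin 3) (q : T3) : T3 :=
  match s with
  | 0 => (-(3 * q.1), 3 * q.2.1 + 2 * q.1, 3 * q.2.2 + 2 * q.1)
  | 1 => (3 * q.1 + 2 * q.2.1, -(3 * q.2.1), 3 * q.2.2 + 2 * q.2.1)
  | 2 => (3 * q.1 + 2 * q.2.2, 3 * q.2.1 + 2 * q.2.2, -(3 * q.2.2))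

/-- All three coordinates are positive. -/
def posT (q : T3) : Bool := decide (0 < q.1) && (decide (0 < q.2.1) && decide (0 < q.2.2))

/-- The check: every reduced word of length at most `n` not beginning with `last` has a frame
whose cone contains one of the points of `Q`. -/
def chk : ℕ → ℕ → List T3 → Bool
  | 0, _, Q => Q.any posT
  | n + 1, last, Q => Q.any posT &&
      ((last == 0 || chk n 0 (Q.map (updT 0))) &&
      ((last == 1 || chk n 1 (Q.map (updT 1))) &&
      (last == 2 || chk n 2 (Q.map (updT 2)))))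

/-- The nineteen piercing points. -/
def ptsQ : List T3 :=
  [(-1, -1, -1),
   (0, -2, 3), (0, 3, -2), (-2, 0, 3), (3, 0, -2), (-2, 3, 0), (3, -2, 0),
   (2, 0, -3), (2, -3, 0), (0, 2, -3), (-3, 2, 0), (0, -3, 2), (-3, 0, 2),
   (3, 3, -2), (3, -2, 3), (-2, 3, 3),
   (-5, -5, 3), (-5, 3, -5), (3, -5, -5)]

/-- Two points inside the root. -/
def ptsE : List T3 := [(2, 2, 1), (1, 1, 2)]

theorem chk_true : chk 10 3 (ptsQ ++ ptsE) = true := by decide +kernel

end Run7.h176
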