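import Mathlib

/-!
# Regular tetrahedra with a common vertex: definitions (MP_254e61_co)
-/

namespace Run7.h176

open Set

/-- Euclidean three-space. -/
abbrev E3 := EuclideanSpace ℝ (Fin 3)

/-- `p` and the three points `v 0`, `v 1`, `v 2` are the vertices of a regular tetrahedron of edge
length `ℓ`. -/
def IsRegTetra (ℓ : ℝ) (p : E3) (v : Fin 3 → E3) : Prop :=
  (∀ i, dist p (v i) = ℓ) ∧ ∀ i j, i ≠ j → dist (v i) (v j) = ℓ

/-- The solid tetrahedron with the vertices `p`, `v 0`, `v 1`, `v 2`. -/
def solid (p : E3) (v : Fin 3 → E3) : Set E3 := convexHull ℝ (insert p (range v))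

/-- `v` is a family of `n` congruent regular tetrahedra (the `i`-th one has the vertices `p`,
`v i 0`, `v i 1`, `v i 2`) of edge length `ℓ > 0`, with the common vertex `p` and with pairwise
disjoint interiors. -/
structure IsFamily {n : ℕ} (ℓ : ℝ) (p : E3) (v : Fin n → Fin 3 → E3) : Prop where
  pos : 0 < ℓ
  reg : ∀ i, IsRegTetra ℓ p (v i)
  disj : Pairwise fun i j => Disjoint (interior (solid p (v i))) (interior (solid p (v j)))

/-- Two tetrahedra with the common vertex `p` and the other vertices `v`, `w` have a common
two-dimensional face through `p`: they have two further vertices in common. -/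
def ShareFace (v w : Fin 3 → E3) : Prop :=
  ∃ a b : E3, a ≠ b ∧ a ∈ range v ∧ b ∈ range v ∧ a ∈ range w ∧ b ∈ range w

/-- Any two members of the family can be joined by a sequence of members in which consecutive ones
have a common two-dimensional face. -/
def FaceConnected {n : ℕ} (v : Fin n → Fin 3 → E3) : Prop :=
  ∀ i j, Relation.ReflTransGen (fun i j => ShareFace (v i) (v j)) i j

end Run7.h176
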