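import Pool.Agent.Run7.h176.TetraUpper

/-!
# Twenty tetrahedra in a chain
-/

namespace Run7.h176

open Set
open scoped RealInnerProductSpace

set_option linter.unusedSimpArgs false

/-! ### Separation of two frames -/

/-- Two sets on different sides of a plane have disjoint interiors. -/
theorem disjoint_of_halfspaces {A B : Set E3} {u : E3} (hu : u ≠ 0) (hA : ∀ x ∈ A, 0 ≤ ⟪u, x⟫)
    (hB : ∀ x ∈ B, ⟪u, x⟫ ≤ 0) : Disjoint (interior A) (interior B) := by
  rw [Set.disjoint_left]
  intro x hxA hxB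
  have h1 : B ∈ nhds x := mem_interior_iff_mem_nhds.1 hxB
  have hcont : Filter.Tendsto (fun t : ℝ => x + t • u) (nhds 0) (nhds x) := by
    have : Continuous (fun t : ℝ => x + t • u) := by fun_prop
    have h2 := this.tendsto 0
    simpa using h2
  have h2 : ∀ᶠ t in nhds (0 : ℝ), x + t • u ∈ B := hcont h1
  have h3 : ∀ᶠ t in nhdsWithin (0 : ℝ) (Ioi 0), x + t • u ∈ B := nhdsWithin_le_nhds h2
  obtain ⟨t, htB, ht⟩ := (h3.and self_mem_nhdsWithin).exists
  have ht0 : (0 : ℝ) < t := ht
  have h4 := hB _ htB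
  have h5 := hA x (interior_subset hxA)
  rw [inner_add_right, real_inner_smul_right] at h4
  have h6 : 0 < ⟪u, u⟫ := by
    rw [real_inner_self_eq_norm_sq]
    have := norm_pos_iff.2 hu
    positivity
  have h7 : 0 < t * ⟪u, u⟫ := mul_pos ht0 h6
  linarith

theorem solid_subset_ge {u : E3} {F : Fin 3 → E3} (h : ∀ k, 0 ≤ ⟪u, F k⟫) :
    ∀ x ∈ solid 0 F, 0 ≤ ⟪u, x⟫ := by
  have hc : Convex ℝ {x : E3 | 0 ≤ ⟪u, x⟫} :=
    convex_halfSpace_ge (f := fun x => ⟪u, x⟫)
      ⟨fun x y => inner_add_right u x y, fun c x => by simp [real_inner_smul_right]⟩ 0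
  have hs : insert (0 : E3) (range F) ⊆ {x : E3 | 0 ≤ ⟪u, x⟫} := by
    intro x hx
    rcases hx with rfl | ⟨k, rfl⟩
    · simp
    · exact h k
  intro x hx
  exact convexHull_min hs hc hx

theorem solid_subset_le {u : E3} {F : Fin 3 → E3} (h : ∀ k, ⟪u, F k⟫ ≤ 0) :
    ∀ x ∈ solid 0 F, ⟪u, x⟫ ≤ 0 := by
  have hc : Convex ℝ {x : E3 | ⟪u, x⟫ ≤ 0} :=
    convex_halfSpace_le (f := fun x => ⟪u, x⟫)
      ⟨fun x y => inner_add_right u x y, fun c x => by simp [real_inner_smul_right]⟩ 0
  have hs : insert (0 : E3) (range F) ⊆ {x : E3 | ⟪u, x⟫ ≤ 0} := by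
    intro x hx
    rcases hx with rfl | ⟨k, rfl⟩
    · simp
    · exact h k
  intro x hx
  exact convexHull_min hs hc hx

/-! ### Integer frames -/

/-- Integer combinations of coordinate vectors. -/
def combT (a b c : ℤ) (x y z : T3) : T3 :=
  (a * x.1 + b * y.1 + c * z.1, a * x.2.1 + b * y.2.1 + c * z.2.1,
    a * x.2.2 + b * y.2.2 + c * z.2.2)

/-- Reflection of an integer frame, multiplied by three. -/
def reflC (C : T3 × T3 × T3) (s : Fin 3) : T3 × T3 × T3 :=
  match s with
  | 0 => (combT (-3) 2 2 C.1 C.2.1 C.2.2, combT 0 3 0 C.1 C.2.1 C.2.2,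
      combT 0 0 3 C.1 C.2.1 C.2.2)
  | 1 => (combT 3 0 0 C.1 C.2.1 C.2.2, combT 2 (-3) 2 C.1 C.2.1 C.2.2,
      combT 0 0 3 C.1 C.2.1 C.2.2)
  | 2 => (combT 3 0 0 C.1 C.2.1 C.2.2, combT 0 3 0 C.1 C.2.1 C.2.2,
      combT 2 2 (-3) C.1 C.2.1 C.2.2)

theorem vec_combT (F : Fin 3 → E3) (a b c : ℤ) (x y z : T3) :
    vec F (combT a b c x y z) = (a : ℝ) • vec F x + (b : ℝ) • vec F y + (c : ℝ) • vec F z := by
  simp only [vec, combT]
  push_cast
  module

/-- `C` lists the coordinates of `G` with respect to `F`, multiplied by `c`. -/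
def Coord (F G : Fin 3 → E3) (c : ℝ) (C : T3 × T3 × T3) : Prop :=
  vec F C.1 = c • G 0 ∧ vec F C.2.1 = c • G 1 ∧ vec F C.2.2 = c • G 2

theorem Coord.refl {F G : Fin 3 → E3} {c : ℝ} {C : T3 × T3 × T3} (h : Coord F G c C)
    (s : Fin 3) : Coord F (Run7.h176.refl G s) (3 * c) (reflC C s) := by
  obtain ⟨h0, h1, h2⟩ := h
  have hs : s = 0 ∨ s = 1 ∨ s = 2 := by fin_cases s <;> simp
  rcases hs with rfl | rfl | rfl
  · refine ⟨?_, ?_, ?_⟩
    · rw [refl_same]
      simp only [reflC, vec_combT, h0, h1, h2, Fin.sum_univ_three]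
      push_cast
      module
    · rw [refl_ne G (by decide : (1 : Fin 3) ≠ 0)]
      simp only [reflC, vec_combT, h0, h1, h2]
      push_cast
      module
    · rw [refl_ne G (by decide : (2 : Fin 3) ≠ 0)]
      simp only [reflC, vec_combT, h0, h1, h2]
      push_cast
      module
  · refine ⟨?_, ?_, ?_⟩
    · rw [refl_ne G (by decide : (0 : Fin 3) ≠ 1)]
      simp only [reflC, vec_combT, h0, h1, h2]
      push_cast
      module
    · rw [refl_same]
      simp only [reflC, vec_combT, h0, h1, h2, Fin.sum_univ_three]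
      push_cast
      module
    · rw [refl_ne G (by decide : (2 : Fin 3) ≠ 1)]
      simp only [reflC, vec_combT, h0, h1, h2]
      push_cast
      module
  · refine ⟨?_, ?_, ?_⟩
    · rw [refl_ne G (by decide : (0 : Fin 3) ≠ 2)]
      simp only [reflC, vec_combT, h0, h1, h2]
      push_cast
      module
    · rw [refl_ne G (by decide : (1 : Fin 3) ≠ 2)]
      simp only [reflC, vec_combT, h0, h1, h2]
      push_cast
      module
    · rw [refl_same]
      simp only [reflC, vec_combT, h0, h1, h2, Fin.sum_univ_three]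
      push_cast
      module

theorem Coord.frame {F G : Fin 3 → E3} {c : ℝ} {C : T3 × T3 × T3} (h : Coord F G c C)
    (w : List (Fin 3)) :
    Coord F (Run7.h176.frame G w) (3 ^ w.length * c) (w.foldl reflC C) := by
  induction w generalizing G c C with
  | nil =>
    have h1 : (3 : ℝ) ^ ([] : List (Fin 3)).length * c = c := by simp
    rw [h1]
    exact h
  | cons s w ih =>
    have := ih (h.refl s)
    rw [List.length_cons, pow_succ, mul_assoc]
    exact this

/-- The identity frame. -/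
def idC : T3 × T3 × T3 := ((1, 0, 0), (0, 1, 0), (0, 0, 1))

theorem coord_id (F : Fin 3 → E3) : Coord F F 1 idC := by
  simp [Coord, idC, vec]

/-- The value of a functional. -/
def dotT (f q : T3) : ℤ := f.1 * q.1 + f.2.1 * q.2.1 + f.2.2 * q.2.2

/-- The functionals used for separation. -/
def fs : List T3 := [(1, 0, 0), (0, 1, 0), (0, 0, 1), (1, 1, 0), (1, 0, 1), (0, 1, 1), (1, 1, 1)]

/-- One of the functionals is nonpositive on the frame reached by `u`. -/
def sepOne (u : List (Fin 3)) : Bool :=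
  fs.any fun f => decide (dotT f (u.foldl reflC idC).1 ≤ 0) &&
    (decide (dotT f (u.foldl reflC idC).2.1 ≤ 0) && decide (dotT f (u.foldl reflC idC).2.2 ≤ 0))

theorem fs_nonneg : ∀ f ∈ fs, 0 ≤ f.1 ∧ 0 ≤ f.2.1 ∧ 0 ≤ f.2.2 ∧ 0 < f.1 + f.2.1 + f.2.2 := by
  decide

theorem sepOne_sound {ℓ : ℝ} {F : Fin 3 → E3} (h : Reg ℓ F) {u : List (Fin 3)}
    (hu : sepOne u = true) :
    Disjoint (interior (solid 0 F)) (interior (solid 0 (frame F u))) := by
  obtain ⟨f, hf, hfu⟩ := List.any_eq_true.1 hu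
  simp only [Bool.and_eq_true, decide_eq_true_eq] at hfu
  obtain ⟨h0, h1, h2⟩ := hfu
  obtain ⟨g0, g1, g2, g3⟩ := fs_nonneg f hf
  set S : ℝ := (f.1 : ℝ) + f.2.1 + f.2.2 with hS
  let y : Fin 3 → ℝ := ![4 * f.1 - S, 4 * f.2.1 - S, 4 * f.2.2 - S]
  let N : E3 := ∑ k, y k • F k
  have hy : ∑ k, y k = S := by
    simp only [y, Fin.sum_univ_three, Matrix.cons_val_zero, Matrix.cons_val_one,
      Matrix.cons_val_two, Matrix.head_cons, Matrix.tail_cons, Matrix.cons_val]
    rw [hS]; ring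
  have hl : 0 < ℓ ^ 2 := by have := h.pos; positivity
  have hN0 : ⟪N, F 0⟫ = 2 * ℓ ^ 2 * f.1 := by
    rw [h.inner_sum, hy]; simp only [y, Matrix.cons_val_zero]; ring
  have hN1 : ⟪N, F 1⟫ = 2 * ℓ ^ 2 * f.2.1 := by
    rw [h.inner_sum, hy]; simp only [y, Matrix.cons_val_one, Matrix.cons_val]; ring
  have hN2 : ⟪N, F 2⟫ = 2 * ℓ ^ 2 * f.2.2 := by
    rw [h.inner_sum, hy]; simp only [y, Matrix.cons_val]; ring
  have hvec : ∀ q : T3, ⟪N, vec F q⟫ = 2 * ℓ ^ 2 * (dotT f q : ℝ) := by
    intro q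
    rw [vec, inner_add_right, inner_add_right, real_inner_smul_right, real_inner_smul_right,
      real_inner_smul_right, hN0, hN1, hN2, dotT]
    push_cast
    ring
  have hC := (coord_id F).frame u
  have hc : (0 : ℝ) < 3 ^ u.length * 1 := by positivity
  have hle : ∀ (q : T3) (g : E3), vec F q = (3 ^ u.length * 1 : ℝ) • g → dotT f q ≤ 0 →
      ⟪N, g⟫ ≤ 0 := by
    intro q g hq hd
    have h3 := hvec q
    rw [hq, real_inner_smul_right] at h3
    have hd' : (dotT f q : ℝ) ≤ 0 := by exact_mod_cast hd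
    have h4 : (3 ^ u.length * 1 : ℝ) * ⟪N, g⟫ ≤ 0 := by
      rw [h3]
      exact mul_nonpos_of_nonneg_of_nonpos (by positivity) hd'
    by_contra hpos
    push Not at hpos
    have := mul_pos hc hpos
    linarith
  refine disjoint_of_halfspaces (u := N) ?_ (solid_subset_ge ?_) (solid_subset_le ?_)
  · intro hN
    rw [hN, inner_zero_left] at hN0 hN1 hN2
    have hS0 : 2 * ℓ ^ 2 * S = 0 := by rw [hS]; linarith
    have hSpos : 0 < S := by rw [hS]; exact_mod_cast g3
    have : 0 < 2 * ℓ ^ 2 * S := by positivity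
    linarith
  · intro k
    have e0 : (0 : ℝ) ≤ f.1 := by exact_mod_cast g0
    have e1 : (0 : ℝ) ≤ f.2.1 := by exact_mod_cast g1
    have e2 : (0 : ℝ) ≤ f.2.2 := by exact_mod_cast g2
    fin_cases k
    · show 0 ≤ ⟪N, F 0⟫
      rw [hN0]; positivity
    · show 0 ≤ ⟪N, F 1⟫
      rw [hN1]; positivity
    · show 0 ≤ ⟪N, F 2⟫
      rw [hN2]; positivity
  · intro k
    fin_cases k
    · exact hle _ _ hC.1 h0
    · exact hle _ _ hC.2.1 h1
    · exact hle _ _ hC.2.2 h2

/-- The test for two members of the chain. -/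
def sepB (u : List (Fin 3)) : Bool := sepOne u || sepOne u.reverse

theorem sepB_sound {ℓ : ℝ} {F : Fin 3 → E3} (h : Reg ℓ F) {u : List (Fin 3)}
    (hu : sepB u = true) :
    Disjoint (interior (solid 0 F)) (interior (solid 0 (frame F u))) := by
  rcases Bool.or_eq_true _ _ ▸ hu with h1 | h1
  · exact sepOne_sound h h1
  · have := sepOne_sound (h.frame u) h1
    rw [frame_reverse] at this
    exact this.symm

/-- The word of the chain. -/
def w19 : List (Fin 3) := [0, 1, 0, 1, 2, 1, 2, 0, 1, 2, 0, 1, 2, 0, 2, 0, 1, 0, 1]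

theorem all_sep : ((List.range 20).all fun j => (List.range j).all fun i =>
    sepB ((w19.drop i).take (j - i))) = true := by decide +kernel

/-- The standard frame. -/
noncomputable def F0 : Fin 3 → E3 :=
  ![WithLp.toLp 2 ![1, 1, 0], WithLp.toLp 2 ![1, 0, 1], WithLp.toLp 2 ![0, 1, 1]]

theorem reg_F0 : Reg (Real.sqrt 2) F0 := by
  have h2 : Real.sqrt 2 ^ 2 = 2 := Real.sq_sqrt (by norm_num)
  refine ⟨by positivity, ?_, ?_⟩
  · intro i
    rw [h2]
    rw [real_inner_self_eq_norm_sq, EuclideanSpace.norm_sq_eq]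
    fin_cases i <;> simp [F0, Fin.sum_univ_three] <;> norm_num
  · intro i j hij
    rw [h2]
    fin_cases i <;> fin_cases j <;>
      first
      | exact absurd rfl hij
      | simp [F0, PiLp.inner_apply, Fin.sum_univ_three]

/-- The chain of twenty tetrahedra. -/
noncomputable def chain (i : Fin 20) : Fin 3 → E3 := frame F0 (w19.take i)

theorem chain_disjoint {i j : Fin 20} (hij : i < j) :
    Disjoint (interior (solid 0 (chain i))) (interior (solid 0 (chain j))) := by
  have h1 := List.all_eq_true.1 all_sep (j : ℕ) (List.mem_range.2 j.isLt)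
  have h2 := List.all_eq_true.1 h1 (i : ℕ) (List.mem_range.2 hij)
  have h3 : chain j = frame (chain i) ((w19.drop i).take (j - i)) := by
    have : w19.take (j : ℕ) = w19.take (i : ℕ) ++ (w19.drop i).take (j - i) := by
      rw [← List.take_add]
      congr 1
      have : (i : ℕ) < j := hij
      omega
    rw [chain, this, frame_append]
    rfl
  rw [h3]
  exact sepB_sound (reg_F0.frame _) h2

theorem chain_family : IsFamily (Real.sqrt 2) 0 chain := by
  refine ⟨by positivity, ?_, ?_⟩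
  · intro i
    have := isRegTetra_of_reg (p := 0) (reg_F0.frame (w19.take i))
    simpa [chain] using this
  · intro i j hij
    rcases lt_or_gt_of_ne hij with h | h
    · exact chain_disjoint h
    · exact (chain_disjoint h).symm

theorem Reg.ne {ℓ : ℝ} {F : Fin 3 → E3} (h : Reg ℓ F) {i j : Fin 3} (hij : i ≠ j) :
    F i ≠ F j := by
  intro he
  have h1 := h.off i j hij
  rw [he, h.diag j] at h1
  have : 0 < ℓ ^ 2 := by have := h.pos; positivity
  linarith

theorem shareFace_refl {ℓ : ℝ} {F : Fin 3 → E3} (h : Reg ℓ F) (s : Fin 3) :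
    ShareFace F (refl F s) := by
  obtain ⟨i, j, hij, hi, hj⟩ : ∃ i j : Fin 3, i ≠ j ∧ i ≠ s ∧ j ≠ s := by
    revert s; decide
  exact ⟨F i, F j, h.ne hij, mem_range_self _, mem_range_self _, ⟨i, refl_ne F hi⟩,
    ⟨j, refl_ne F hj⟩⟩

theorem chain_share (i : Fin 19) : ShareFace (chain i.castSucc) (chain i.succ) := by
  have hlen : (i : ℕ) < w19.length := i.isLt
  have h1 : w19.take ((i : ℕ) + 1) = w19.take (i : ℕ) ++ [w19[(i : ℕ)]] :=
    (List.take_concat_get' w19 (i : ℕ) hlen).symm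
  have h2 : chain i.succ = refl (chain i.castSucc) w19[(i : ℕ)] := by
    show frame F0 (w19.take ((i : ℕ) + 1)) = _
    rw [h1, frame_append]
    rfl
  rw [h2]
  exact shareFace_refl (reg_F0.frame _) _

theorem faceConnected_of_chain {n : ℕ} {v : Fin (n + 1) → Fin 3 → E3}
    (h : ∀ i : Fin n, ShareFace (v i.castSucc) (v i.succ)) : FaceConnected v := by
  have h0 : ∀ i : Fin (n + 1),
      Relation.ReflTransGen (fun i j => ShareFace (v i) (v j)) 0 i ∧
      Relation.ReflTransGen (fun i j => ShareFace (v i) (v j)) i 0 := by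
    intro i
    induction i using Fin.induction with
    | zero => exact ⟨Relation.ReflTransGen.refl, Relation.ReflTransGen.refl⟩
    | succ i ih =>
      exact ⟨ih.1.tail (h i), Relation.ReflTransGen.head (h i).symm ih.2⟩
  intro i j
  exact (h0 i).2.trans (h0 j).1

end Run7.h176
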