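import Pool.Agent.Run7.h176.TetraBall

/-!
# The upper bound
-/

namespace Run7.h176

open Set
open scoped RealInnerProductSpace

theorem ShareFace.symm {v w : Fin 3 → E3} (h : ShareFace v w) : ShareFace w v := by
  obtain ⟨a, b, hab, h1, h2, h3, h4⟩ := h
  exact ⟨a, b, hab, h3, h4, h1, h2⟩

/-- The graph of face adjacency. -/
def faceGraph {n : ℕ} (v : Fin n → Fin 3 → E3) : SimpleGraph (Fin n) where
  Adj i j := i ≠ j ∧ ShareFace (v i) (v j)
  symm := ⟨fun _ _ h => ⟨h.1.symm, h.2.symm⟩⟩
  loopless := ⟨fun _ h => h.1 rfl⟩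

theorem faceGraph_connected {n : ℕ} (hn : 0 < n) {v : Fin n → Fin 3 → E3}
    (h : FaceConnected v) : (faceGraph v).Connected := by
  have : Nonempty (Fin n) := ⟨⟨0, hn⟩⟩
  refine ⟨fun i j => ?_⟩
  have hij := h i j
  induction hij with
  | refl => exact SimpleGraph.Reachable.refl _
  | tail _ hstep ih =>
    rename_i b c _
    by_cases hbc : b = c
    · rw [← hbc]; exact ih
    · exact ih.trans (SimpleGraph.Adj.reachable ⟨hbc, hstep⟩)

theorem range_eq_of_cover {F : Fin 3 → E3} {i j s : Fin 3}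
    (h : ∀ k : Fin 3, k = i ∨ k = j ∨ k = s) : range F = {F i, F j, F s} := by
  ext x
  constructor
  · rintro ⟨k, rfl⟩
    rcases h k with rfl | rfl | rfl <;> simp
  · rintro (rfl | rfl | rfl)
    · exact mem_range_self _
    · exact mem_range_self _
    · exact mem_range_self _

theorem third : ∀ i j : Fin 3, i ≠ j → ∃ s : Fin 3, s ≠ i ∧ s ≠ j ∧
    ∀ k : Fin 3, k = i ∨ k = j ∨ k = s := by decide

section Family

variable {n : ℕ} {ℓ : ℝ} {p : E3} {v : Fin n → Fin 3 → E3}

/-- The frame of vectors of a member of the family. -/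
def U (p : E3) (v : Fin n → Fin 3 → E3) (i : Fin n) : Fin 3 → E3 := fun k => v i k - p

theorem IsFamily.regU (h : IsFamily ℓ p v) (i : Fin n) : Reg ℓ (U p v i) :=
  reg_of_isRegTetra h.pos (h.reg i)

theorem mem_of_range_eq {F : Fin 3 → E3} {i : Fin n} (hF : range F = range (U p v i))
    (k : Fin 3) : p + F k ∈ insert p (range (v i)) := by
  have : F k ∈ range (U p v i) := by rw [← hF]; exact mem_range_self k
  obtain ⟨m, hm⟩ := this
  right
  refine ⟨m, ?_⟩
  rw [← hm]
  simp [U]

/-- Two members with a common direction inside are equal. -/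
theorem IsFamily.eq_of_common (h : IsFamily ℓ p v) {i j : Fin n} {F G : Fin 3 → E3}
    (hF : Reg ℓ F) (hG : Reg ℓ G) (hFi : range F = range (U p v i))
    (hGj : range G = range (U p v j)) {w : E3} (h1 : InCone F w) (h2 : InCone G w) : i = j := by
  by_contra hij
  exact not_disjoint hF hG p (mem_of_range_eq hFi) (mem_insert _ _) (mem_of_range_eq hGj)
    (mem_insert _ _) h1 h2 (h.disj hij)

/-- A member adjacent to a member with the frame `F` is obtained by a reflection. -/
theorem IsFamily.step (h : IsFamily ℓ p v) {i j : Fin n} (hij : i ≠ j)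
    (hs : ShareFace (v i) (v j)) {F : Fin 3 → E3} (hF : Reg ℓ F)
    (hFi : range F = range (U p v i)) :
    ∃ s, range (Run7.h176.refl F s) = range (U p v j) := by
  obtain ⟨a, b, hab, ⟨i1, ha1⟩, ⟨i2, hb1⟩, ⟨j1, ha2⟩, ⟨j2, hb2⟩⟩ := hs
  have ha3 : a - p ∈ range F := by rw [hFi]; exact ⟨i1, by simp [U, ha1]⟩
  have hb3 : b - p ∈ range F := by rw [hFi]; exact ⟨i2, by simp [U, hb1]⟩
  obtain ⟨k1, hk1⟩ := ha3
  obtain ⟨k2, hk2⟩ := hb3
  have hk12 : k1 ≠ k2 := by
    rintro rfl
    rw [hk1] at hk2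
    exact hab (sub_left_injective hk2)
  have hj12 : j1 ≠ j2 := by
    rintro rfl
    exact hab (ha2.symm.trans hb2)
  obtain ⟨s, hs1, hs2, hs⟩ := third k1 k2 hk12
  obtain ⟨t, ht1, ht2, ht⟩ := third j1 j2 hj12
  have hj1 : U p v j j1 = F k1 := by rw [hk1, ← ha2]; rfl
  have hj2 : U p v j j2 = F k2 := by rw [hk2, ← hb2]; rfl
  have hUj := h.regU j
  have hd : ⟪U p v j t, U p v j t⟫ = ℓ ^ 2 := hUj.diag t
  have hdk : ∀ k, k ≠ s → ⟪U p v j t, F k⟫ = ℓ ^ 2 / 2 := by
    intro k hk
    rcases hs k with rfl | rfl | rfl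
    · rw [← hj1]; exact hUj.off t j1 ht1
    · rw [← hj2]; exact hUj.off t j2 ht2
    · exact absurd rfl hk
  rcases two_solutions hF s hd hdk with h1 | h1
  · exfalso
    have hr : range F = range (U p v j) := by
      rw [range_eq_of_cover hs, range_eq_of_cover ht, hj1, hj2, h1]
    have hw : InCone F (∑ k, (1 : ℝ) • F k) := ⟨fun _ => 1, fun _ => one_pos, rfl⟩
    exact hij (h.eq_of_common hF hF hFi hr hw hw)
  · refine ⟨s, ?_⟩
    rw [range_eq_of_cover hs, range_eq_of_cover ht, hj1, hj2, h1, refl_ne F (Ne.symm hs1),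
      refl_ne F (Ne.symm hs2)]

/-- Members near `r` are reached by short reduced words. -/
theorem IsFamily.words (h : IsFamily ℓ p v) (r : Fin n) {x : Fin n}
    (q : (faceGraph v).Walk x r) :
    ∃ w : List (Fin 3), w.length ≤ q.length ∧ Red 3 w ∧
      range (frame (U p v r) w) = range (U p v x) := by
  induction q with
  | nil => exact ⟨[], by simp, trivial, rfl⟩
  | cons hadj q ih =>
    rename_i x y r
    obtain ⟨w, hw1, hw2, hw3⟩ := ih
    obtain ⟨s, hs⟩ := h.step (Ne.symm hadj.1) hadj.2.symm ((h.regU r).frame w) hw3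
    obtain ⟨u, hu1, hu2, hu3⟩ := red_step 3 w hw2 s (U p v r) (fun _ => by
      have := s.isLt
      omega)
    refine ⟨u, ?_, hu2, ?_⟩
    · rw [SimpleGraph.Walk.length_cons]
      omega
    · rw [hu3, hs]

theorem posE : ∀ q ∈ ptsE, posT q = true := by decide

/-- **Upper bound.** A face-connected family has at most twenty members. -/
theorem IsFamily.le_twenty (h : IsFamily ℓ p v) (hc : FaceConnected v) : n ≤ 20 := by
  classical
  by_contra hn
  push Not at hn
  have hG : (faceGraph v).Connected := faceGraph_connected (by omega) hc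
  obtain ⟨r, hr⟩ := exists_big_ball (faceGraph v) hG 10 (by rw [Fintype.card_fin]; omega)
  set B := (ball (faceGraph v) r 10).erase r with hB
  have hBcard : 20 ≤ B.card := by
    rw [hB, Finset.card_erase_of_mem (by rw [mem_ball]; simp)]
    omega
  -- every member of `B` contains one of the nineteen points
  have key : ∀ x ∈ B, ∃ q ∈ ptsQ.toFinset, ∃ w : List (Fin 3),
      range (frame (U p v r) w) = range (U p v x) ∧
        InCone (frame (U p v r) w) (vec (U p v r) q) := by
    intro x hx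
    have hxr : x ≠ r := Finset.ne_of_mem_erase hx
    have hxb : (faceGraph v).dist r x ≤ 10 := mem_ball.1 (Finset.mem_of_mem_erase hx)
    obtain ⟨q, hq⟩ := hG.exists_walk_length_eq_dist x r
    rw [SimpleGraph.dist_comm] at hq
    obtain ⟨w, hw1, hw2, hw3⟩ := h.words r q
    obtain ⟨z, hz, hpos⟩ := chk_sound 10 3 _ chk_true w (by omega) hw2
    have hcone := inCone_frame (F := U p v r) hpos
    rcases List.mem_append.1 hz with hz | hz
    · exact ⟨z, List.mem_toFinset.2 hz, w, hw3, hcone⟩
    · exfalso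
      have h1 : InCone (U p v r) (vec (U p v r) z) := inCone_of_pos (posE z hz)
      exact hxr (h.eq_of_common (h.regU r) ((h.regU r).frame w) rfl hw3 h1 hcone).symm
  choose! f hf using key
  have hcard : ptsQ.toFinset.card < B.card := by
    have : ptsQ.toFinset.card ≤ ptsQ.length := List.toFinset_card_le _
    have h2 : ptsQ.length = 19 := rfl
    omega
  obtain ⟨x, hx, y, hy, hxy, hfxy⟩ :=
    Finset.exists_ne_map_eq_of_card_lt_of_maps_to hcard (fun x hx => (hf x hx).1)
  obtain ⟨-, w, hw, hwc⟩ := hf x hx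
  obtain ⟨-, u, hu, huc⟩ := hf y hy
  rw [← hfxy] at huc
  exact hxy (h.eq_of_common ((h.regU r).frame w) ((h.regU r).frame u) hw hu hwc huc)

end Family

end Run7.h176
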