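import Pool.Agent.Run7.h176.TetraCheck

/-!
# Words, frames and coordinates
-/

namespace Run7.h176

open Set
open scoped RealInnerProductSpace

set_option linter.unusedSimpArgs false

/-- The frame reached from `F` by the reflections listed in `w`. -/
noncomputable def frame (F : Fin 3 → E3) (w : List (Fin 3)) : Fin 3 → E3 := w.foldl refl F

theorem Reg.frame {ℓ : ℝ} {F : Fin 3 → E3} (h : Reg ℓ F) (w : List (Fin 3)) :
    Reg ℓ (Run7.h176.frame F w) := by
  induction w generalizing F with
  | nil => exact h
  | cons s w ih => exact ih (h.refl s)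

theorem frame_append (F : Fin 3 → E3) (w u : List (Fin 3)) :
    frame F (w ++ u) = frame (frame F w) u := by
  simp [frame, List.foldl_append]

theorem frame_cons (F : Fin 3 → E3) (s : Fin 3) (w : List (Fin 3)) :
    frame F (s :: w) = frame (refl F s) w := rfl

theorem frame_reverse (F : Fin 3 → E3) (w : List (Fin 3)) :
    frame (frame F w) w.reverse = F := by
  induction w generalizing F with
  | nil => rfl
  | cons s w ih =>
    rw [List.reverse_cons, frame_append]
    show frame (frame (frame (refl F s) w) w.reverse) [s] = F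
    rw [ih]
    exact refl_refl F s

/-- The vector with the coordinates `q`. -/
noncomputable def vec (F : Fin 3 → E3) (q : T3) : E3 :=
  (q.1 : ℝ) • F 0 + (q.2.1 : ℝ) • F 1 + (q.2.2 : ℝ) • F 2

theorem vec_updT (F : Fin 3 → E3) (s : Fin 3) (q : T3) :
    vec (refl F s) (updT s q) = (3 : ℝ) • vec F q := by
  obtain ⟨x, y, z⟩ := q
  have hs : s = 0 ∨ s = 1 ∨ s = 2 := by fin_cases s <;> simp
  rcases hs with rfl | rfl | rfl
  · rw [vec, refl_same, refl_ne F (by decide : (1 : Fin 3) ≠ 0),
      refl_ne F (by decide : (2 : Fin 3) ≠ 0)]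
    simp only [updT, vec, Fin.sum_univ_three]
    push_cast
    module
  · rw [vec, refl_same, refl_ne F (by decide : (0 : Fin 3) ≠ 1),
      refl_ne F (by decide : (2 : Fin 3) ≠ 1)]
    simp only [updT, vec, Fin.sum_univ_three]
    push_cast
    module
  · rw [vec, refl_same, refl_ne F (by decide : (0 : Fin 3) ≠ 2),
      refl_ne F (by decide : (1 : Fin 3) ≠ 2)]
    simp only [updT, vec, Fin.sum_univ_three]
    push_cast
    module

theorem vec_foldl (F : Fin 3 → E3) (w : List (Fin 3)) (q : T3) :
    vec (frame F w) (w.foldl (fun q s => updT s q) q) = (3 : ℝ) ^ w.length • vec F q := by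
  induction w generalizing F q with
  | nil => simp [frame]
  | cons s w ih =>
    rw [frame_cons, List.foldl_cons, ih, vec_updT, smul_smul, List.length_cons, pow_succ]

theorem inCone_smul {F : Fin 3 → E3} {w : E3} {c : ℝ} (hc : 0 < c) (h : InCone F (c • w)) :
    InCone F w := by
  obtain ⟨x, hx, h⟩ := h
  refine ⟨fun k => c⁻¹ * x k, fun k => mul_pos (inv_pos.2 hc) (hx k), ?_⟩
  have : w = c⁻¹ • (c • w) := by rw [smul_smul, inv_mul_cancel₀ hc.ne', one_smul]
  rw [this, h, Finset.smul_sum]
  simp only [smul_smul]

theorem inCone_of_pos {F : Fin 3 → E3} {q : T3} (h : posT q = true) : InCone F (vec F q) := by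
  simp only [posT, Bool.and_eq_true, decide_eq_true_eq] at h
  obtain ⟨h0, h1, h2⟩ := h
  refine ⟨![(q.1 : ℝ), (q.2.1 : ℝ), (q.2.2 : ℝ)], ?_, ?_⟩
  · intro k
    fin_cases k
    · show (0 : ℝ) < (q.1 : ℝ)
      exact_mod_cast h0
    · show (0 : ℝ) < (q.2.1 : ℝ)
      exact_mod_cast h1
    · show (0 : ℝ) < (q.2.2 : ℝ)
      exact_mod_cast h2
  · simp [vec, Fin.sum_univ_three]

/-- A point whose coordinates become positive along the word lies in the cone of the frame reached
by the word. -/
theorem inCone_frame {F : Fin 3 → E3} {w : List (Fin 3)} {q : T3}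
    (h : posT (w.foldl (fun q s => updT s q) q) = true) : InCone (frame F w) (vec F q) := by
  have h1 := inCone_of_pos (F := frame F w) h
  rw [vec_foldl] at h1
  exact inCone_smul (by positivity) h1

/-- Words without two equal consecutive letters which do not begin with `last`. -/
def Red : ℕ → List (Fin 3) → Prop
  | _, [] => True
  | last, s :: w => (s : ℕ) ≠ last ∧ Red (s : ℕ) w

theorem chk_sound (n : ℕ) (last : ℕ) (Q : List T3) (h : chk n last Q = true)
    (w : List (Fin 3)) (hw : w.length ≤ n) (hr : Red last w) :
    ∃ q ∈ Q, posT (w.foldl (fun q s => updT s q) q) = true := by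
  induction n generalizing last Q w with
  | zero =>
    have hw0 : w = [] := List.length_eq_zero_iff.1 (Nat.le_zero.1 hw)
    subst hw0
    simpa [chk, List.any_eq_true] using h
  | succ n ih =>
    rw [chk, Bool.and_eq_true, Bool.and_eq_true, Bool.and_eq_true] at h
    obtain ⟨h0, ha, hb, hc⟩ := h
    cases w with
    | nil => simpa [List.any_eq_true] using h0
    | cons s w =>
      obtain ⟨hs, hr⟩ := hr
      have hlen : w.length ≤ n := by simpa using hw
      have hmain : ∃ q ∈ Q.map (updT s), posT (w.foldl (fun q s => updT s q) q) = true := by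
        have hfin : s = 0 ∨ s = 1 ∨ s = 2 := by fin_cases s <;> simp
        rcases hfin with rfl | rfl | rfl
        · have : chk n 0 (Q.map (updT 0)) = true := by
            rcases Bool.or_eq_true _ _ ▸ ha with h1 | h1
            · exact absurd (by simpa using h1) (Ne.symm hs)
            · exact h1
          exact ih 0 _ this w hlen hr
        · have : chk n 1 (Q.map (updT 1)) = true := by
            rcases Bool.or_eq_true _ _ ▸ hb with h1 | h1
            · exact absurd (by simpa using h1) (Ne.symm hs)
            · exact h1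
          exact ih 1 _ this w hlen hr
        · have : chk n 2 (Q.map (updT 2)) = true := by
            rcases Bool.or_eq_true _ _ ▸ hc with h1 | h1
            · exact absurd (by simpa using h1) (Ne.symm hs)
            · exact h1
          exact ih 2 _ this w hlen hr
      obtain ⟨q, hq, hp⟩ := hmain
      obtain ⟨q', hq', rfl⟩ := List.mem_map.1 hq
      exact ⟨q', hq', hp⟩

/-- Appending a letter different from the last one keeps a word reduced; if the letter equals the
last one, delete the last one instead. -/
theorem red_step (last : ℕ) (w : List (Fin 3)) (hw : Red last w) (s : Fin 3) (F : Fin 3 → E3)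
    (h0 : w = [] → (s : ℕ) ≠ last) :
    ∃ u : List (Fin 3), u.length ≤ w.length + 1 ∧ Red last u ∧ frame F u = refl (frame F w) s := by
  induction w generalizing last F with
  | nil => exact ⟨[s], by simp, ⟨h0 rfl, trivial⟩, rfl⟩
  | cons t w ih =>
    obtain ⟨ht, hw⟩ := hw
    by_cases hnil : w = []
    · subst hnil
      by_cases hts : s = t
      · subst hts
        refine ⟨[], by simp, trivial, ?_⟩
        show F = refl (refl F s) s
        rw [refl_refl]
      · refine ⟨[t, s], by simp, ⟨ht, fun h => hts (Fin.ext h), trivial⟩, rfl⟩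
    · obtain ⟨u, hu1, hu2, hu3⟩ := ih (t : ℕ) hw (refl F t) (fun h => absurd h hnil)
      refine ⟨t :: u, ?_, ⟨ht, hu2⟩, ?_⟩
      · simp only [List.length_cons]
        omega
      · rw [frame_cons, hu3, frame_cons]

end Run7.h176
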